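import Pool.Agent.R470.Tf.J321
import Pool.Agent.TH773.ST.Avg
import Pool.Agent.H449R2.Fl.Copies

/-! Induced copies of the pattern of Turán's construction with classes of 3, 2, 1 vertices: the
maximum number in `K_4^3`-free 3-graphs, with stability. -/

set_option autoImplicit false
set_option maxRecDepth 100000
open Finset

namespace Pool.Agent.R470.Tf
open Pool.Agent.H449R2.Fl Pool.Agent.TH773.ST
open Pool.Agent.R470.Tu (CopyOf cops)

section
variable {V : Type} [Fintype V]

open Classical in
theorem seeds_ge {e : V → V → V → ℕ} :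
    ((univ : Finset (Fin 6 → V)).filter fun v => ∀ i j k : Fin 6,
      e (v i) (v j) (v k) = pe 131056 i.val j.val k.val).card ≤ (Seeds e).card * Fintype.card V := by
  have h : (Seeds e).card * Fintype.card V = ((Seeds e) ×ˢ (univ : Finset V)).card := by
    rw [card_product, card_univ]
  rw [h]
  refine card_le_card_of_injOn
    (fun v : Fin 6 → V => ((![v 1, v 2, v 4, v 5, v 0] : Fin 5 → V), v 3)) ?_ ?_
  · intro v hv
    rw [mem_coe, mem_filter] at hv
    rw [mem_coe, mem_product]
    refine ⟨mem_filter.mpr ⟨mem_univ _, ?_⟩, mem_univ _⟩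
    intro i j k hij hjk
    have hs : ∀ i, (![v 1, v 2, v 4, v 5, v 0] : Fin 5 → V) i =
        v ((![1, 2, 4, 5, 0] : Fin 5 → Fin 6) i) := by
      intro i; fin_cases i <;> rfl
    show e ((![v 1, v 2, v 4, v 5, v 0] : Fin 5 → V) i) ((![v 1, v 2, v 4, v 5, v 0] : Fin 5 → V) j)
      ((![v 1, v 2, v 4, v 5, v 0] : Fin 5 → V) k) = _
    rw [hs, hs, hs, hv.2]
    revert i j k
    decide +kernel
  · intro v _ v' _ h
    have h1 : (![v 1, v 2, v 4, v 5, v 0] : Fin 5 → V) = ![v' 1, v' 2, v' 4, v' 5, v' 0] :=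
      congrArg Prod.fst h
    have h2 : v 3 = v' 3 := congrArg Prod.snd h
    funext i
    fin_cases i
    · exact congrFun h1 4
    · exact congrFun h1 0
    · exact congrFun h1 1
    · exact h2
    · exact congrFun h1 2
    · exact congrFun h1 3

variable [DecidableEq V]

/-- the six-set `S` splits into classes of 3, 2, 1 vertices (those of the colours 0, 1, 2) so that
the edges inside `S` are given by Turán's rule -/
def Sp (H : Finset (Finset V)) (S : Finset V) : Prop :=
  S.card = 6 ∧ ∃ c : V → Fin 3, (S.filter fun x => c x = 0).card = 3 ∧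
    (S.filter fun x => c x = 1).card = 2 ∧ (S.filter fun x => c x = 2).card = 1 ∧
    ∀ x ∈ S, ∀ y ∈ S, ∀ z ∈ S, x ≠ y → x ≠ z → y ≠ z → ind H x y z = Rf (c x) (c y) (c z)

theorem pe_Rf (a b c : Fin 6) : pe 131056 a.val b.val c.val =
    if (a ≠ b ∧ a ≠ c ∧ b ≠ c) then Rf ((![2, 0, 0, 0, 1, 1] : Fin 6 → Fin 3) a)
      ((![2, 0, 0, 0, 1, 1] : Fin 6 → Fin 3) b) ((![2, 0, 0, 0, 1, 1] : Fin 6 → Fin 3) c) else 0 := by
  revert a b c
  decide +kernel

omit [Fintype V] in
theorem sp_copy {H : Finset (Finset V)} (h3 : ∀ s ∈ H, s.card = 3) {S : Finset V} (h : Sp H S) :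
    ∃ f : Fin 6 → V, Function.Injective f ∧ univ.image f = S ∧
      ∀ a b c : Fin 6, ind H (f a) (f b) (f c) = pe 131056 a.val b.val c.val := by
  obtain ⟨hS, c, c0, c1, c2, hR⟩ := h
  obtain ⟨a1, a2, a3, -, -, -, hA⟩ := card_eq_three.mp c0
  obtain ⟨b1, b2, -, hB⟩ := card_eq_two.mp c1
  obtain ⟨x, hX⟩ := card_eq_one.mp c2
  have mA : ∀ u, u ∈ ({a1, a2, a3} : Finset V) → u ∈ S ∧ c u = 0 := fun u hu => by
    rw [← hA] at hu; exact mem_filter.mp hu
  have mB : ∀ u, u ∈ ({b1, b2} : Finset V) → u ∈ S ∧ c u = 1 := fun u hu => by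
    rw [← hB] at hu; exact mem_filter.mp hu
  have mX : ∀ u, u ∈ ({x} : Finset V) → u ∈ S ∧ c u = 2 := fun u hu => by
    rw [← hX] at hu; exact mem_filter.mp hu
  set f : Fin 6 → V := ![x, a1, a2, a3, b1, b2] with hf
  have hfc : ∀ i, f i ∈ S ∧ c (f i) = (![2, 0, 0, 0, 1, 1] : Fin 6 → Fin 3) i := by
    intro i
    fin_cases i
    · exact mX x (by simp)
    · exact mA a1 (by simp)
    · exact mA a2 (by simp)
    · exact mA a3 (by simp)
    · exact mB b1 (by simp)
    · exact mB b2 (by simp)
  have him : univ.image f = S := by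
    ext u
    rw [mem_image]
    constructor
    · rintro ⟨i, -, rfl⟩
      exact (hfc i).1
    · intro hu
      have h012 : c u = 0 ∨ c u = 1 ∨ c u = 2 := by
        generalize c u = w
        revert w
        decide
      rcases h012 with h | h | h
      · have : u ∈ ({a1, a2, a3} : Finset V) := by rw [← hA]; exact mem_filter.mpr ⟨hu, h⟩
        simp only [mem_insert, mem_singleton] at this
        rcases this with rfl | rfl | rfl
        exacts [⟨1, mem_univ _, rfl⟩, ⟨2, mem_univ _, rfl⟩, ⟨3, mem_univ _, rfl⟩]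
      · have : u ∈ ({b1, b2} : Finset V) := by rw [← hB]; exact mem_filter.mpr ⟨hu, h⟩
        simp only [mem_insert, mem_singleton] at this
        rcases this with rfl | rfl
        exacts [⟨4, mem_univ _, rfl⟩, ⟨5, mem_univ _, rfl⟩]
      · have : u ∈ ({x} : Finset V) := by rw [← hX]; exact mem_filter.mpr ⟨hu, h⟩
        simp only [mem_singleton] at this
        exact ⟨0, mem_univ _, this.symm⟩
  have hinj : Function.Injective f := by
    have h1 : (univ.image f).card = (univ : Finset (Fin 6)).card := by rw [him, hS]; rfl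
    have h2 := Finset.injOn_of_card_image_eq h1
    intro i j hij
    exact h2 (by simp) (by simp) hij
  refine ⟨f, hinj, him, fun a b d => ?_⟩
  have hp := ind_pat h3
  rw [pe_Rf]
  by_cases hab : a = b
  · subst hab
    rw [hp.dg]
    simp
  by_cases had : a = d
  · subst had
    rw [hp.s23, hp.dg]
    simp
  by_cases hbd : b = d
  · subst hbd
    rw [hp.s12, hp.s23, hp.dg]
    simp
  rw [if_pos ⟨hab, had, hbd⟩, ← (hfc a).2, ← (hfc b).2, ← (hfc d).2]
  exact hR _ (hfc a).1 _ (hfc b).1 _ (hfc d).1 (fun h => hab (hinj h)) (fun h => had (hinj h))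
    (fun h => hbd (hinj h))

open Classical in
/-- the number of six-sets which split -/
noncomputable def pats (H : Finset (Finset V)) : ℕ :=
  ((univ : Finset (Finset V)).filter fun S => Sp H S).card

open Classical in
theorem cops_ge {H : Finset (Finset V)} (h3 : ∀ s ∈ H, s.card = 3) :
    720 * pats H ≤ cops (ind H) 131056 := by
  have e1 : cops (ind H) 131056 = ((univ : Finset (V × V × V × V × V × V)).filter fun t =>
      CopyOf (ind H) 131056 ![t.1, t.2.1, t.2.2.1, t.2.2.2.1, t.2.2.2.2.1, t.2.2.2.2.2]).card := by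
    rw [card_filter]
    unfold cops
    simp only [Fintype.sum_prod_type]
  rw [e1]
  set 𝒞 := (univ : Finset (Finset V)).filter fun S => Sp H S with h𝒞
  choose f hinj him hpe using fun S : {S // S ∈ 𝒞} => sp_copy h3 (mem_filter.mp S.2).2
  have hcard : (univ : Finset ({S // S ∈ 𝒞} × Equiv.Perm (Fin 6))).card = 720 * pats H := by
    rw [card_univ, Fintype.card_prod, Fintype.card_perm, Fintype.card_fin, Fintype.card_coe]
    have : Nat.factorial 6 = 720 := by decide
    rw [this, mul_comm]
    rfl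
  rw [← hcard]
  refine card_le_card_of_injOn (fun p : {S // S ∈ 𝒞} × Equiv.Perm (Fin 6) =>
    (f p.1 (p.2 0), f p.1 (p.2 1), f p.1 (p.2 2), f p.1 (p.2 3), f p.1 (p.2 4), f p.1 (p.2 5))) ?_ ?_
  · intro p _
    rw [mem_coe, mem_filter]
    refine ⟨mem_univ _, p.2.symm, fun a b c => ?_⟩
    have hv : ∀ i, (![f p.1 (p.2 0), f p.1 (p.2 1), f p.1 (p.2 2), f p.1 (p.2 3), f p.1 (p.2 4),
        f p.1 (p.2 5)] : Fin 6 → V) i = f p.1 (p.2 i) := by
      intro i
      fin_cases i <;> rfl
    show ind H ((![f p.1 (p.2 0), f p.1 (p.2 1), f p.1 (p.2 2), f p.1 (p.2 3), f p.1 (p.2 4),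
        f p.1 (p.2 5)] : Fin 6 → V) (p.2.symm a)) _ _ = _
    rw [hv, hv, hv, Equiv.apply_symm_apply, Equiv.apply_symm_apply, Equiv.apply_symm_apply]
    exact hpe p.1 a b c
  · rintro ⟨S, σ⟩ _ ⟨S', σ'⟩ _ h
    simp only [Prod.mk.injEq] at h
    obtain ⟨h0, h1, h2, h3', h4, h5⟩ := h
    have hall : ∀ i, f S (σ i) = f S' (σ' i) := by
      intro i
      fin_cases i
      · exact h0
      · exact h1
      · exact h2
      · exact h3'
      · exact h4
      · exact h5
    have hSS : S = S' := by
      apply Subtype.ext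
      rw [← him S, ← him S']
      ext x
      simp only [mem_image, mem_univ, true_and]
      constructor
      · rintro ⟨i, rfl⟩
        exact ⟨σ' (σ.symm i), by rw [← hall, Equiv.apply_symm_apply]⟩
      · rintro ⟨i, rfl⟩
        exact ⟨σ (σ'.symm i), by rw [hall, Equiv.apply_symm_apply]⟩
    subst hSS
    have : σ = σ' := Equiv.ext fun i => hinj S (hall i)
    rw [this]

open Classical in
theorem pats_le {H : Finset (Finset V)} (h3 : ∀ s ∈ H, s.card = 3) :
    pats H ≤ (Seeds (ind H)).card * Fintype.card V := by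
  refine le_trans ?_ (seeds_ge (e := ind H))
  unfold pats
  set 𝒞 := (univ : Finset (Finset V)).filter fun S => Sp H S with h𝒞
  choose f hinj him hpe using fun S : {S // S ∈ 𝒞} => sp_copy h3 (mem_filter.mp S.2).2
  have hcard : (univ : Finset {S // S ∈ 𝒞}).card = 𝒞.card := by
    rw [card_univ, Fintype.card_coe]
  rw [← hcard]
  refine card_le_card_of_injOn (fun p : {S // S ∈ 𝒞} => f p) ?_ ?_
  · intro p _
    rw [mem_coe, mem_filter]
    exact ⟨mem_univ _, hpe p⟩
  · intro S _ S' _ h
    apply Subtype.ext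
    rw [← him S, ← him S']
    have h' : f S = f S' := h
    rw [h']

/-- the 3-graph of Turán's construction with the classes of `g` -/
def turG (g : V → Fin 3) : Finset (Finset V) :=
  ((univ : Finset V).powersetCard 3).filter fun t =>
    ∀ x ∈ t, ∀ y ∈ t, ∀ z ∈ t, x ≠ y → x ≠ z → y ≠ z → rB (g x) (g y) (g z) = true

theorem rB_symm : (∀ a b c, rB a b c = rB b a c) ∧ (∀ a b c, rB a b c = rB a c b) := by
  constructor <;> decide

theorem ind_turG (g : V → Fin 3) {x y z : V} (h1 : x ≠ y) (h2 : x ≠ z) (h3 : y ≠ z) :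
    ind (turG g) x y z = Rf (g x) (g y) (g z) := by
  have hc : ({x, y, z} : Finset V).card = 3 := by
    rw [card_insert_of_notMem (by simp [h1, h2]), card_pair h3]
  have key : ({x, y, z} : Finset V) ∈ turG g ↔ rB (g x) (g y) (g z) = true := by
    unfold turG
    rw [mem_filter, mem_powersetCard]
    constructor
    · rintro ⟨-, h⟩
      exact h x (by simp) y (by simp) z (by simp) h1 h2 h3
    · intro h
      refine ⟨⟨subset_univ _, hc⟩, ?_⟩
      intro u hu v hv w hw huv huw hvw
      have s1 := rB_symm.1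
      have s2 := rB_symm.2
      simp only [mem_insert, mem_singleton] at hu hv hw
      rcases hu with rfl | rfl | rfl <;> rcases hv with rfl | rfl | rfl <;>
        rcases hw with rfl | rfl | rfl <;> first
        | exact absurd rfl huv
        | exact absurd rfl huw
        | exact absurd rfl hvw
        | exact h
        | (rw [s1]; exact h)
        | (rw [s2]; exact h)
        | (rw [s1, s2]; exact h)
        | (rw [s2, s1]; exact h)
        | (rw [s1, s2, s1]; exact h)
  unfold ind Rf
  by_cases hm : ({x, y, z} : Finset V) ∈ turG g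
  · rw [if_pos hm, if_pos (key.mp hm)]
  · rw [if_neg hm, if_neg (fun h => hm (key.mpr h))]

theorem turG_card (g : V → Fin 3) : ∀ t ∈ turG g, t.card = 3 := fun _ ht =>
  (mem_powersetCard.mp (mem_filter.mp ht).1).2

omit [DecidableEq V] in
theorem sum_fin3 (f : (Fin 3 → V) → ℕ) :
    ∑ a : V, ∑ b : V, ∑ c : V, f ![a, b, c] = ∑ v : Fin 3 → V, f v := by
  simp only [← (Fin.consEquiv (fun _ => V)).sum_comp, Fintype.sum_prod_type]
  refine sum_congr rfl fun a _ => sum_congr rfl fun b _ => sum_congr rfl fun c _ => ?_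
  rw [Fintype.sum_unique]
  congr 1

open Classical in
theorem six_symm {H : Finset (Finset V)} (h3 : ∀ s ∈ H, s.card = 3) (g : V → Fin 3) :
    6 * (symmDiff H (turG g)).card ≤ bad (ind H) g := by
  have hD : ∀ s ∈ symmDiff H (turG g), s.card = 3 := by
    intro s hs
    rcases mem_symmDiff.mp hs with h | h
    · exact h3 s h.1
    · exact turG_card g s h.1
  rw [← sum_ind hD]
  have hb : bad (ind H) g = ∑ v : Fin 3 → V,
      (if ind H (v 0) (v 1) (v 2) ≠ Rf (g (v 0)) (g (v 1)) (g (v 2)) then 1 else 0) := by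
    unfold bad
    rw [card_filter]
  rw [hb, ← sum_fin3 (fun v => if ind H (v 0) (v 1) (v 2) ≠ Rf (g (v 0)) (g (v 1)) (g (v 2)) then 1
    else 0)]
  refine sum_le_sum fun x _ => sum_le_sum fun y _ => sum_le_sum fun z _ => ?_
  show _ ≤ (if ind H x y z ≠ Rf (g x) (g y) (g z) then 1 else 0)
  by_cases hi : ind (symmDiff H (turG g)) x y z = 1
  · rw [hi]
    obtain ⟨n1, n2, n3⟩ := ind_distinct hD hi
    rw [← ind_turG g n1 n2 n3]
    rw [if_pos]
    intro heq
    have hmem : ({x, y, z} : Finset V) ∈ symmDiff H (turG g) := by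
      by_contra hn
      unfold ind at hi
      rw [if_neg hn] at hi
      omega
    have hiff : ({x, y, z} : Finset V) ∈ H ↔ ({x, y, z} : Finset V) ∈ turG g := by
      unfold ind at heq
      by_cases a1 : ({x, y, z} : Finset V) ∈ H <;> by_cases a2 : ({x, y, z} : Finset V) ∈ turG g <;>
        simp [a1, a2] at heq ⊢
    rcases mem_symmDiff.mp hmem with h | h
    · exact h.2 (hiff.mp h.1)
    · exact h.2 (hiff.mpr h.1)
  · have hle := (ind_pat hD).le1 x y z
    have : ind (symmDiff H (turG g)) x y z = 0 := by omega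
    rw [this]
    exact Nat.zero_le _

/-- the maximum number of copies, with stability -/
theorem core {H : Finset (Finset V)} (h3 : ∀ s ∈ H, s.card = 3)
    (hK : ∀ S : Finset V, S.card = 4 → ∃ s ⊆ S, s.card = 3 ∧ s ∉ H) :
    ∃ g : V → Fin 3, Fintype.card V ^ 3 * (symmDiff H (turG g)).card + 313528320 * pats H ≤
      107520 * Fintype.card V ^ 6 := by
  obtain ⟨g, hg⟩ := exists_col (E := ind H)
  refine ⟨g, ?_⟩
  have hm := J321.main (ind_pat h3) (fun a b c d => K4free_sg h3 hK a b c d)
  have hc := cops_ge h3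
  have hp := pats_le h3
  have hs := six_symm h3 g
  have hb := bad_le (E := ind H) g
  have hmN : 204984696176640 * NT (ind H) + 13119020555304960 * cops (ind H) 131056 ≤
      3239264334643200 * Fintype.card V ^ 6 := by exact_mod_cast hm
  generalize (symmDiff H (turG g)).card = M at hs ⊢
  generalize pats H = N at hc hp ⊢
  generalize bad (ind H) g = b at hg hb hs
  generalize (Seeds (ind H)).card = q at hg hp
  generalize NT (ind H) = T at hg hmN
  generalize cops (ind H) 131056 = C at hc hmN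
  generalize Fintype.card V = n at hg hp hb hmN ⊢
  have hN : 81 * T + 3732480 * N ≤ 1280 * n ^ 6 := by
    generalize n ^ 6 = W at hmN ⊢
    omega
  have hb3 : n ^ 3 * b ≤ n ^ 6 := by
    calc n ^ 3 * b ≤ n ^ 3 * n ^ 3 := Nat.mul_le_mul_left _ hb
      _ = n ^ 6 := by ring
  have hM : 6 * (n ^ 3 * M) ≤ n ^ 3 * b := by
    calc 6 * (n ^ 3 * M) = n ^ 3 * (6 * M) := by ring
      _ ≤ _ := Nat.mul_le_mul_left _ hs
  by_cases hcase : n ^ 6 ≤ 5832 * N
  · rcases Nat.eq_zero_or_pos n with hn | hn
    · subst hn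
      simp only [Nat.zero_pow (n := 3) (by norm_num), Nat.zero_pow (n := 6) (by norm_num), zero_mul,
        mul_zero] at hN ⊢
      omega
    have h1 : b * N ≤ 7 * (T * n ^ 3) := by
      calc b * N ≤ b * (q * n) := Nat.mul_le_mul_left _ hp
        _ = (q * b) * n := by ring
        _ ≤ (7 * (T * n ^ 2)) * n := Nat.mul_le_mul_right _ hg
        _ = 7 * (T * n ^ 3) := by ring
    have h2 : n ^ 3 * b ≤ 40824 * T := by
      have h4 : n ^ 3 * (n ^ 3 * b) ≤ n ^ 3 * (40824 * T) := by
        calc n ^ 3 * (n ^ 3 * b) = b * n ^ 6 := by ring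
          _ ≤ b * (5832 * N) := Nat.mul_le_mul_left _ hcase
          _ = 5832 * (b * N) := by ring
          _ ≤ 5832 * (7 * (T * n ^ 3)) := Nat.mul_le_mul_left _ h1
          _ = n ^ 3 * (40824 * T) := by ring
      exact Nat.le_of_mul_le_mul_left h4 (by positivity)
    generalize n ^ 3 * b = B at hM h2
    generalize n ^ 3 * M = A at hM ⊢
    generalize n ^ 6 = W at hN ⊢
    omega
  · push Not at hcase
    generalize n ^ 3 * b = B at hM hb3
    generalize n ^ 3 * M = A at hM ⊢
    generalize n ^ 6 = W at hN hb3 hcase ⊢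
    omega

end

end Pool.Agent.R470.Tf
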