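import Pool.Agent.R470.Tf.J321Tab

/-! Kernel checks (generated). -/

set_option autoImplicit false
set_option maxRecDepth 100000

namespace Pool.Agent.R470.Tf.J321
open Pool.Agent.H449R2.Fl

theorem c0_0 : nall 16 (fun i => nall 64 fun j => ckE 60 65536 1125899906842624 w0 l0 t0 (fun _ => 0) (Nat.add 0 i) j) = true := by
  decide +kernel
theorem c0_1 : nall 16 (fun i => nall 64 fun j => ckE 60 65536 1125899906842624 w0 l0 t0 (fun _ => 0) (Nat.add 16 i) j) = true := by
  decide +kernel
theorem c0_2 : nall 16 (fun i => nall 64 fun j => ckE 60 65536 1125899906842624 w0 l0 t0 (fun _ => 0) (Nat.add 32 i) j) = true := by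
  decide +kernel
theorem c0_3 : nall 16 (fun i => nall 64 fun j => ckE 60 65536 1125899906842624 w0 l0 t0 (fun _ => 0) (Nat.add 48 i) j) = true := by
  decide +kernel
theorem c1_0 : nall 16 (fun i => nall 64 fun j => ckE 56 65536 1125899906842624 w1 l1 t1 (fun _ => 0) (Nat.add 0 i) j) = true := by
  decide +kernel
theorem c1_1 : nall 16 (fun i => nall 64 fun j => ckE 56 65536 1125899906842624 w1 l1 t1 (fun _ => 0) (Nat.add 16 i) j) = true := by
  decide +kernel
theorem c1_2 : nall 16 (fun i => nall 64 fun j => ckE 56 65536 1125899906842624 w1 l1 t1 (fun _ => 0) (Nat.add 32 i) j) = true := by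
  decide +kernel
theorem c1_3 : nall 16 (fun i => nall 64 fun j => ckE 56 65536 1125899906842624 w1 l1 t1 (fun _ => 0) (Nat.add 48 i) j) = true := by
  decide +kernel
theorem c3_0 : nall 16 (fun i => nall 64 fun j => ckE 51 65536 1125899906842624 w3 l3 t3 (fun _ => 0) (Nat.add 0 i) j) = true := by
  decide +kernel
theorem c3_1 : nall 16 (fun i => nall 64 fun j => ckE 51 65536 1125899906842624 w3 l3 t3 (fun _ => 0) (Nat.add 16 i) j) = true := by
  decide +kernel
theorem c3_2 : nall 16 (fun i => nall 64 fun j => ckE 51 65536 1125899906842624 w3 l3 t3 (fun _ => 0) (Nat.add 32 i) j) = true := by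
  decide +kernel
theorem c3_3 : nall 16 (fun i => nall 64 fun j => ckE 51 65536 1125899906842624 w3 l3 t3 (fun _ => 0) (Nat.add 48 i) j) = true := by
  decide +kernel
theorem c7_0 : nall 16 (fun i => nall 64 fun j => ckE 42 65536 1125899906842624 w7 l7 t7 (fun _ => 0) (Nat.add 0 i) j) = true := by
  decide +kernel
theorem c7_1 : nall 16 (fun i => nall 64 fun j => ckE 42 65536 1125899906842624 w7 l7 t7 (fun _ => 0) (Nat.add 16 i) j) = true := by
  decide +kernel
theorem c7_2 : nall 16 (fun i => nall 64 fun j => ckE 42 65536 1125899906842624 w7 l7 t7 (fun _ => 0) (Nat.add 32 i) j) = true := by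
  decide +kernel
theorem c7_3 : nall 16 (fun i => nall 64 fun j => ckE 42 65536 1125899906842624 w7 l7 t7 (fun _ => 0) (Nat.add 48 i) j) = true := by
  decide +kernel
theorem cq : nall 16 (fun i => nall 16 fun j => ckE 11 65536 35184372088832 wq lq q (fun _ => 0) i j) = true := by
  decide +kernel
theorem cB0 : Nat.ble (ev T q 0) B = true := by
  decide +kernel
theorem cB1 : Nat.ble (ev T q 1043) B = true := by
  decide +kernel
theorem cB2 : Nat.ble (ev T q 7294) B = true := by
  decide +kernel
theorem cB3 : Nat.ble (ev T q 65520) B = true := by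
  decide +kernel
theorem cB4 : Nat.ble (ev T q 76983) B = true := by
  decide +kernel
theorem cB5 : Nat.ble (ev T q 81150) B = true := by
  decide +kernel
theorem cB6 : Nat.ble (ev T q 131056) B = true := by
  decide +kernel
theorem cB7 : Nat.ble (ev T q 261091) B = true := by
  decide +kernel
theorem cF : Nat.ble (Nat.add (ev T q 131056) wt) B = true := by
  decide +kernel
theorem cD : Nat.ble dl B = true := by
  decide +kernel

end Pool.Agent.R470.Tf.J321
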