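import Pool.Agent.R470.Tu.Wt
import Pool.Agent.TH773.ST.Typ

/-! The flag bound with weights for `K_4^3`: a slack for six-tuples which do not span a pattern of
Turán's construction and a weight for six-tuples which span a copy of a given pattern. -/

set_option autoImplicit false
set_option maxRecDepth 100000
open Finset

namespace Pool.Agent.R470.Tf
open Pool.Agent.H449R2.Fl Pool.Agent.R470.Tu Pool.Agent.TH773.ST

/-- masks of the eight patterns of Turán's construction on six vertices -/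
def isT (m : ℕ) : Bool :=
  or (Nat.beq m 0) (or (Nat.beq m 1043) (or (Nat.beq m 7294) (or (Nat.beq m 65520)
    (or (Nat.beq m 76983) (or (Nat.beq m 81150) (or (Nat.beq m 131056) (Nat.beq m 261091)))))))

/-- a complete 3-graph on four vertices, or one of the patterns -/
def hb (m : ℕ) : Bool := or (hasK4 m) (isT m)

theorem isT_cases {m : ℕ} (h : isT m = true) : m ∈ MT := by
  unfold isT at h
  simp only [Bool.or_eq_true] at h
  unfold MT
  simp only [List.mem_cons, List.not_mem_nil, or_false]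
  rcases h with h | h | h | h | h | h | h | h
  all_goals have := Nat.eq_of_beq_eq_true h
  all_goals omega

theorem isT_spec {m : ℕ} (h : m ∈ MT) : ∃ s : Fin 6 → Fin 3, ∀ i j k : Fin 6, i ≠ j → i ≠ k →
    j ≠ k → pe m i.val j.val k.val = Rf (s i) (s j) (s k) := by
  unfold MT at h
  simp only [List.mem_cons, List.not_mem_nil, or_false] at h
  rcases h with rfl | rfl | rfl | rfl | rfl | rfl | rfl | rfl
  · exact ⟨![0, 0, 0, 0, 0, 0], by decide +kernel⟩
  · exact ⟨![0, 0, 1, 1, 1, 1], by decide +kernel⟩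
  · exact ⟨![0, 0, 0, 1, 1, 1], by decide +kernel⟩
  · exact ⟨![0, 0, 0, 0, 1, 1], by decide +kernel⟩
  · exact ⟨![0, 1, 2, 2, 2, 2], by decide +kernel⟩
  · exact ⟨![0, 1, 1, 2, 2, 2], by decide +kernel⟩
  · exact ⟨![0, 1, 1, 1, 2, 2], by decide +kernel⟩
  · exact ⟨![0, 0, 1, 1, 2, 2], by decide +kernel⟩

theorem tt_of_perm {V : Type} {e : V → V → V → ℕ} {v : Fin 6 → V} {m : ℕ} (hm : m ∈ MT)
    (σ : Equiv.Perm (Fin 6))
    (h : ∀ i j k : Fin 6, e (v (σ i)) (v (σ j)) (v (σ k)) = pe m i.val j.val k.val) : TT e v := by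
  obtain ⟨s, hs⟩ := isT_spec hm
  refine ⟨fun i => s (σ.symm i), fun i j k hij hjk => ?_⟩
  have h1 := h (σ.symm i) (σ.symm j) (σ.symm k)
  simp only [Equiv.apply_symm_apply] at h1
  rw [h1]
  exact hs _ _ _ (fun h => hij.ne (σ.symm.injective h)) (fun h => (hij.trans hjk).ne (σ.symm.injective h))
    (fun h => hjk.ne (σ.symm.injective h))

section
variable {V : Type} {e : V → V → V → ℕ}

open Classical in
theorem sel_wt (he : Pat e) (T : ℕ → ℕ → ℕ → ℕ) (q : ℕ → ℕ → ℕ) (B dl w mF : ℕ)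
    (hchk : ∀ h < 2136, (hb (rep6 h) || Nat.ble (ev T q (rep6 h)) (Nat.sub B dl)) = true)
    (cB : ∀ m ∈ MT, Nat.ble (ev T q m) B = true)
    (cF : Nat.ble (Nat.add (ev T q mF) w) B = true) (cD : Nat.ble dl B = true)
    (hK : ∀ a b c d, sg e a b c d ≠ 15) (hF : mF ∈ MT)
    (v : Fin 6 → V) :
    sel6 (phi e T q) (v 0) (v 1) (v 2) (v 3) (v 4) (v 5) + (if TT e v then 0 else dl)
      + (if CopyOf e mF v then w else 0) ≤ B := by
  by_cases hc : CopyOf e mF v
  · have hb6 : TT e v := by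
      obtain ⟨σ, hσ⟩ := hc
      exact tt_of_perm hF σ hσ
    rw [if_pos hc, if_pos hb6]
    obtain ⟨σ, hσ⟩ := hc
    have h1 := sel6_perm (phi e T q) v σ (perm_list σ)
    have h2 := ev_eq e T q (fun i => v (σ i)) mF hσ
    have h3 := Nat.le_of_ble_eq_true cF
    rw [Nat.add_eq] at h3
    rw [← h1]
    have h4 : sel6 (phi e T q) (v (σ 0)) (v (σ 1)) (v (σ 2)) (v (σ 3)) (v (σ 4)) (v (σ 5)) =
        ev T q mF := h2
    rw [h4]
    omega
  · rw [if_neg hc]
    obtain ⟨π, hπ, h, hh, hm⟩ := iso_red (pat_comp he v)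
    obtain ⟨σ, hσ⟩ := list_perm hπ
    have h1 := sel6_perm (phi e T q) v π hπ
    have h2 := ev_eq e T q (fun i => v (π i)) (rep6 h) hm
    have h3 : hasK4 (rep6 h) = false := hasK4_false hK (fun i => v (π i)) (rep6 h) hm
    have h4 := hchk h hh
    have h5 : sel6 (phi e T q) (v 0) (v 1) (v 2) (v 3) (v 4) (v 5) = ev T q (rep6 h) := by
      rw [← h1]
      exact h2
    have hD := Nat.le_of_ble_eq_true cD
    rw [h5]
    by_cases hi : isT (rep6 h) = true
    · have hm' := isT_cases hi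
      have hb6 : TT e v := by
        refine tt_of_perm hm' σ ?_
        intro i j k
        rw [hσ, hσ, hσ]
        exact hm i j k
      rw [if_pos hb6]
      have h6 := Nat.le_of_ble_eq_true (cB _ hm')
      omega
    · have hi' : isT (rep6 h) = false := Bool.eq_false_iff.mpr hi
      have h6 : hb (rep6 h) = false := by
        unfold hb
        rw [h3, hi']
        rfl
      rw [h6, Bool.false_or] at h4
      have h7 := Nat.le_of_ble_eq_true h4
      rw [Nat.sub_eq] at h7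
      split_ifs <;> omega

end

section
variable {V : Type} [Fintype V] {e : V → V → V → ℕ}

theorem sum_fin6 (f : (Fin 6 → V) → ℕ) :
    ∑ a : V, ∑ b : V, ∑ c : V, ∑ d : V, ∑ x : V, ∑ y : V, f ![a, b, c, d, x, y] = ∑ v : Fin 6 → V, f v := by
  simp only [← (Fin.consEquiv (fun _ => V)).sum_comp, Fintype.sum_prod_type]
  refine sum_congr rfl fun a _ => sum_congr rfl fun b _ => sum_congr rfl fun c _ =>
    sum_congr rfl fun d _ => sum_congr rfl fun x _ => sum_congr rfl fun y _ => ?_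
  rw [Fintype.sum_unique]
  congr 1

open Classical in
theorem NT_eq : ∑ a : V, ∑ b : V, ∑ c : V, ∑ d : V, ∑ x : V, ∑ y : V,
    (if TT e ![a, b, c, d, x, y] then 0 else 1) = NT e := by
  rw [sum_fin6 (fun v => if TT e v then 0 else 1)]
  unfold NT
  rw [card_filter]
  refine sum_congr rfl fun v _ => ?_
  by_cases h : TT e v
  · rw [if_pos h, if_neg (not_not.mpr h)]
  · rw [if_neg h, if_pos h]

theorem wt_bound (he : Pat e) (T : ℕ → ℕ → ℕ → ℕ) (q : ℕ → ℕ → ℕ) (B dl w mF : ℕ)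
    (hchk : ∀ h < 2136, (hb (rep6 h) || Nat.ble (ev T q (rep6 h)) (Nat.sub B dl)) = true)
    (cB : ∀ m ∈ MT, Nat.ble (ev T q m) B = true)
    (cF : Nat.ble (Nat.add (ev T q mF) w) B = true) (cD : Nat.ble dl B = true)
    (hK : ∀ a b c d, sg e a b c d ≠ 15)
    (K : ℕ) (W : ℕ → ℕ → ℕ)
    (P : ℕ → ℕ → ℕ → ℤ) (K2 : ℕ) (W2 : ℕ → ℕ) (G : ℕ → ℕ → ℤ) (off off2 : ℤ)
    (ob : ℕ → ℕ → ℕ → ℤ)
    (hT : ∀ s < 16, ∀ i < 64, ∀ j < 64, (T s i j : ℤ) =
      off + ∑ k ∈ range K, (W s k : ℤ) * (P s i k * P s j k) + ob s i j)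
    (hq : ∀ s < 16, ∀ t < 16, (q s t : ℤ) =
      off2 + ∑ k ∈ range K2, (W2 k : ℤ) * (G s k * G t k)) (hF : mF ∈ MT) :
    720 * ∑ a, ∑ b, ∑ c, ∑ d, ∑ x, ∑ y, ob (sg e a b c d) (ta e a b c d x) (ta e a b c d y)
      + (dl : ℤ) * (NT e : ℤ) + (w : ℤ) * (cops e mF : ℤ) ≤
      ((B : ℤ) - 720 * (off + off2)) * (Fintype.card V : ℤ) ^ 6 := by
  classical
  have h1 := flag_lower2 he T q K W P K2 W2 G off off2 ob hT hq
  have h2 : ∑ a : V, ∑ b : V, ∑ c : V, ∑ d : V, ∑ x : V, ∑ y : V,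
      (sel6 (phi e T q) a b c d x y + (if TT e ![a, b, c, d, x, y] then 0 else dl)
        + (if CopyOf e mF ![a, b, c, d, x, y] then w else 0)) ≤ B * Fintype.card V ^ 6 := by
    have h3 : ∑ a : V, ∑ b : V, ∑ c : V, ∑ d : V, ∑ x : V, ∑ y : V,
        (sel6 (phi e T q) a b c d x y + (if TT e ![a, b, c, d, x, y] then 0 else dl)
        + (if CopyOf e mF ![a, b, c, d, x, y] then w else 0)) ≤
        ∑ a : V, ∑ b : V, ∑ c : V, ∑ d : V, ∑ x : V, ∑ y : V, B :=
      sum_le_sum fun a _ => sum_le_sum fun b _ => sum_le_sum fun c _ => sum_le_sum fun d _ =>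
        sum_le_sum fun x _ => sum_le_sum fun y _ => by
          exact sel_wt he T q B dl w mF hchk cB cF cD hK hF ![a, b, c, d, x, y]
    refine h3.trans (le_of_eq ?_)
    simp only [sum_const, card_univ, smul_eq_mul]
    ring
  simp only [sum_add_distrib] at h2
  rw [tot6] at h2
  have e1 : ∑ a : V, ∑ b : V, ∑ c : V, ∑ d : V, ∑ x : V, ∑ y : V,
      (if TT e ![a, b, c, d, x, y] then 0 else dl) = dl * NT e := by
    rw [← NT_eq]
    simp only [mul_sum, mul_ite, mul_zero, mul_one]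
  have e2 : ∑ a : V, ∑ b : V, ∑ c : V, ∑ d : V, ∑ x : V, ∑ y : V,
      (if CopyOf e mF ![a, b, c, d, x, y] then w else 0) = w * cops e mF := by
    unfold cops
    simp only [mul_sum, mul_ite, mul_zero, mul_one]
  rw [e1, e2] at h2
  have h4 : (720 : ℤ) * ((∑ a, ∑ b, ∑ c, ∑ d, ∑ x, ∑ y, phi e T q a b c d x y : ℕ) : ℤ)
      + (dl : ℤ) * (NT e : ℤ) + (w : ℤ) * (cops e mF : ℤ) ≤
      (B : ℤ) * (Fintype.card V : ℤ) ^ 6 := by exact_mod_cast h2
  linarith

end

end Pool.Agent.R470.Tf
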